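import Pool.Agent.Q82.Mob.Turan

/-!
# MP_490342_co, question 1

Among all graphs of order `n ≥ 4` with mobile general position number two, the Turán graph
`T(n, 3)` is the unique graph with the largest number of edges.

The definitions `IsGP`, `LegalMove`, `IsMobileGP` and `mob` are in `Pool/Agent/Q82/Mob/Defs.lean`;
they are those of `Pool/Agent/Results/MP_73e407_co/TriangleForcesThree.lean`.
-/

set_option autoImplicit false

open SimpleGraph Q82.Mob

namespace Pool.Agent.Results.MP_490342_co.TuranThree

universe u

/-- For every `n ≥ 4` the Turán graph `T(n, 3)` has mobile general position number two, every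
graph of order `n` with mobile general position number two has at most as many edges as
`T(n, 3)`, and equality holds for `T(n, 3)` only. -/
theorem result (n : ℕ) (hn : 4 ≤ n) :
    mob (turanGraph n 3) = 2 ∧
    ∀ (V : Type u) [Fintype V] [DecidableEq V] (G : SimpleGraph V), Fintype.card V = n →
      mob G = 2 →
      G.edgeSet.ncard ≤ (turanGraph n 3).edgeSet.ncard ∧
      (G.edgeSet.ncard = (turanGraph n 3).edgeSet.ncard → Nonempty (G ≃g turanGraph n 3)) := by
  refine ⟨turan_mob hn, ?_⟩
  intro V _ _ G hV h2
  classical
  have hG : G.Connected := connected_of_mob (by omega) h2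
  have e1 : G.edgeSet.ncard = G.edgeFinset.card := by
    rw [← coe_edgeFinset, Set.ncard_coe_finset]
  have e2 : (turanGraph n 3).edgeSet.ncard = n * n / 3 := by
    rw [← turan_edges, ← coe_edgeFinset, Set.ncard_coe_finset]
  rw [e1, e2]
  by_cases hcf : G.CliqueFree 4
  · have key : ∀ (H : SimpleGraph V) [DecidableRel H.Adj], H.CliqueFree 4 →
        H.edgeFinset.card ≤ n * n / 3 := by
      intro H _ hH
      have h3 := CliqueFree.card_edgeFinset_le (G := H) (r := 3) hH
      have h4 := card_edgeFinset_turanGraph (n := n) (r := 3)
      have h5 := turan_edges n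
      rw [hV] at h3
      have h6 : (turanGraph n 3).edgeFinset.card = n * n / 3 := h5
      omega
    refine ⟨key G hcf, fun he => ?_⟩
    have hmax : G.IsTuranMaximal 3 := by
      refine ⟨hcf, fun H _ hH => ?_⟩
      have h3 := key H hH
      rw [he]
      exact h3
    have := (isTuranMaximal_iff_nonempty_iso_turanGraph (by norm_num : 0 < 3)).mp hmax
    rwa [hV] at this
  · have hlt : G.edgeFinset.card < n * n / 3 := by
      by_contra hno
      rw [not_lt] at hno
      have h4 : ∃ K : Finset V, G.IsClique (K : Set V) ∧ K.card = 4 := by
        unfold CliqueFree at hcf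
        push Not at hcf
        obtain ⟨K, hK⟩ := hcf
        exact ⟨K, hK.isClique, hK.card_eq⟩
      have hD : DD G Finset.univ = 2 * G.edgeFinset.card := by
        rw [← sum_degrees_eq_twice_card_edges]
        unfold DD dg
        refine Finset.sum_congr rfl fun v _ => ?_
        rw [← card_neighborFinset_eq_degree, neighborFinset_eq_filter]
      have := kfour_mob hG h4 (by
        rw [hV, hD]
        omega)
      omega
    exact ⟨hlt.le, fun he => absurd he hlt.ne⟩

end Pool.Agent.Results.MP_490342_co.TuranThree
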